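import Pool.Agent.helper96.LSZF.L8

/-!
# The Liang-So-Zhang permanent inequality when the graph of one factor is a forest

The inequality `(per A) ^ m * (per B) ^ n ≤ per (A ⊗ B)` holds for every positive semidefinite `B`
and every `A` whose off-diagonal nonzero entries lie on the edges of an acyclic graph, provided the
diagonal entries `A i i` and the products `A i j * A j i` are nonnegative real numbers. This contains
every positive semidefinite `A` with an acyclic graph.
-/

set_option autoImplicit false
open scoped ComplexOrder

namespace Pool.Agent.Results.MP_2dd521_co.ForestFactor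

/-- `G` is a forest on the index set of `A`, and every nonzero off-diagonal entry of `A` is on an
edge of `G`. -/
theorem result (n m : ℕ) (A : Matrix (Fin n) (Fin n) ℂ) (B : Matrix (Fin m) (Fin m) ℂ)
    (hB : B.PosSemidef)
    (hdiag : ∀ i, 0 ≤ A i i) (hprod : ∀ i j, i ≠ j → 0 ≤ A i j * A j i)
    (G : SimpleGraph (Fin n)) (hG : G.IsAcyclic)
    (hsupp : ∀ i j, i ≠ j → A i j ≠ 0 → G.Adj i j) :
    A.permanent ^ m * B.permanent ^ n ≤ (Matrix.kronecker A B).permanent := by
  have h := Pool.Agent.helper96.LSZF.lsz_acyclic A B hB hdiag hprod G hG hsupp
  rw [Fintype.card_fin, Fintype.card_fin] at h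
  exact h

end Pool.Agent.Results.MP_2dd521_co.ForestFactor
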