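import Pool.Agent.helper96.Slope.FIN2
import Pool.Agent.helper96.Slope.TT3
import Pool.Agent.helper96.Slope.TI2
import Pool.Agent.helper12.Slope.PL
import Pool.Agent.helper67.Slope.AP

set_option autoImplicit false

/-!
# A positive proportion of the equations `b p - a q = c (b - a)`

For all `c ≠ 0` and `k ≥ 2`, all large `A` and all `H` between `A ^ K₀` and `exp (δ A)`, at least
`δ A ^ k` of the tuples `a ∈ [1, A] ^ k` are such that all the equations
`a j * x i - a i * x j = c * (a j - a i)` satisfy the conditions of the problem and have together at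
least `η H / (A (log H) ^ k)` common solutions in primes `x i ≤ H`.

Proof.  The solutions are `x i = a i * n + c`.  For a family of moduli `a ≡ 1 mod P` in `(A, 2A]`,
where `P` is the product of the primes `≤ W`, one bounds `∑ φ(a) θ(X; a, c)` from below: write
`log n = ∑_{d ∣ n} Λ(d)` for the integers `n ≡ c mod a` without prime factors `≤ z = X^{1/s}`; the left
side is evaluated by the Brun-Hooley sieve, the terms `n = d m` with `m > 1` are bilinear in two
variables without prime factors `≤ z`, and are controlled by a Bessel inequality for Dirichlet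
characters with the Brun-Hooley majorant as weight (no loss of logarithms; a non-principal character
mod `a` has conductor `> W`, which divides few of the moduli).  Then use Hölder's inequality in `n`,
the `k`-dimensional upper bound sieve for each tuple and the Cauchy-Schwarz inequality.
-/

open Pool.Agent.helper96.Slope Finset

namespace Pool.Agent.Results.MP_bf63dc_nt.SlopeTuples

open Classical in
/-- A positive proportion of the tuples of coefficients has many common prime solutions. -/
theorem result : ∃ K₀ : ℕ, ∀ (c : ℤ) (k : ℕ), c ≠ 0 → 2 ≤ k → ∃ η δ : ℝ, 0 < η ∧ 0 < δ ∧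
    ∃ A₀ : ℕ, ∀ A ≥ A₀, ∀ H : ℕ, A ^ K₀ ≤ H → (H : ℝ) ≤ Real.exp (δ * A) →
      δ * (A : ℝ) ^ k ≤ #{a ∈ Fintype.piFinset fun _ : Fin k => Icc 1 A |
        (∀ i j, i ≠ j → Adm (a j) (a i) (c * ((a j : ℤ) - a i))) ∧
        η * (H / (A * Real.log H ^ k)) ≤ (commonSolutions a c H).ncard} :=
  final_of (pairs_lower_of (ap_lower_of_typeII typeII typeI_two))

end Pool.Agent.Results.MP_bf63dc_nt.SlopeTuples
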