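import Pool.Agent.helper16.LSZ.Forest

/-!
# The Liang–So–Zhang permanent inequality when one factor is a star forest

The inequality `(per A) ^ m * (per B) ^ n ≤ per (A ⊗ B)` holds for every positive semidefinite `B`
and every positive semidefinite `A` whose off-diagonal nonzero entries form a star forest. This
contains all `2 × 2` matrices `A`.
-/

set_option autoImplicit false
open scoped ComplexOrder

namespace Pool.Agent.Results.MP_2dd521_co.StarForest

/-- `c i` is the centre of the star of `i` (so `c i = i` for a centre); the only nonzero
off-diagonal entries of `A` join a vertex and the centre of its star. -/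
theorem result (n m : ℕ) (A : Matrix (Fin n) (Fin n) ℂ) (B : Matrix (Fin m) (Fin m) ℂ)
    (hA : A.PosSemidef) (hB : B.PosSemidef)
    (c : Fin n → Fin n) (hc : ∀ i, c (c i) = c i)
    (hstar : ∀ i j, i ≠ j → c i ≠ j → c j ≠ i → A i j = 0) :
    A.permanent ^ m * B.permanent ^ n ≤ (Matrix.kronecker A B).permanent := by
  simpa using Pool.Agent.helper16.LSZ.lsz_forest A hA c hc hstar B hB

end Pool.Agent.Results.MP_2dd521_co.StarForest
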